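import Pool.Agent.N282.MG.C

/-!
# Montgomery's bound for `Λ(n) χ(n) n^(it)` in all progressions, for almost all `χ` mod `r` and `t ≤ T`

Let `ψ(x; q, a; χ, t) = ∑_{n ≤ x, n ≡ a (q)} Λ(n) χ(n) n^(it)`. For all pairs `(χ, t)`, `χ` a Dirichlet character mod `r`,
`0 ≤ t ≤ T`, outside a set of measure at most `C φ(r) T R₀^(-A)`, the bound
`|ψ(x; q, a; χ, t)| ≤ x^ε ((x/q)^(1/2) + x^(1/4))` holds for ALL `R₀ ≤ x ≤ (rT)^c`, all `q ≤ x` and all classes `a` mod `q`.
In the range `q ≤ x^(1/2)` of the problem the bound is at most `2 x^(1/2+ε) / q^(1/2)`. There is no hypothesis.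

Proof. High moments over `(χ, t)`, exponent by exponent. The number of pairs of `k`-tuples of elements of a set `A` of primes
with equal products is at most `(4 k² |A|)^k` (concatenate: the product is a square), and a class mod `q` has at most `2x/q`
elements up to `x`; characters mod `r` and `t ≤ T` separate integers up to `rT`. Union bound over `x`, `q`, `a`.
-/

set_option autoImplicit false

open MeasureTheory

namespace Pool.Agent.Results.MP_9cfc0a_nt.ComplexTwists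

open Classical in
/-- `ψ(x; q, a; χ, t)`: the sum of `Λ(n) χ(n) n^(it)` over the integers `1 ≤ n ≤ x` with `n ≡ a` mod `q`, where `Λ` is the
von Mangoldt function and `n^(it) = exp(i t log n)`. -/
noncomputable def psi {r : ℕ} (χ : DirichletCharacter ℂ r) (t : ℝ) (x q a : ℕ) : ℂ :=
  ∑ n ∈ (Finset.Icc 1 x).filter (fun n => n ≡ a [MOD q]),
    (ArithmeticFunction.vonMangoldt n : ℂ) * (χ n * Complex.exp (Complex.I * t * Real.log n))

/-- For all `ε, A > 0` there are `c, C > 0` such that for every modulus `r ≥ 1`, every `T ≥ 1` and `R₀ ≥ 1`: the sum over the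
Dirichlet characters `χ` mod `r` of the measure of the set of those `t ∈ [0, T]`, for which
`|ψ(x; q, a; χ, t)| > x^ε ((x/q)^(1/2) + x^(1/4))` for SOME integer `x` with `R₀ ≤ x ≤ (rT)^c`, some `1 ≤ q ≤ x` and some
`0 ≤ a < q`, is at most `C φ(r) T R₀^(-A)`. -/
theorem result : ∀ ε A : ℝ, 0 < ε → 0 < A → ∃ c C : ℝ, 0 < c ∧ 0 < C ∧
    ∀ (r : ℕ) (_ : NeZero r) (T : ℝ) (R₀ : ℕ), 1 ≤ T → 1 ≤ R₀ →
    ∑ χ : DirichletCharacter ℂ r, (volume {t : ℝ | t ∈ Set.Icc 0 T ∧ ∃ x q a : ℕ, R₀ ≤ x ∧ (x : ℝ) ≤ (r * T) ^ c ∧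
      1 ≤ q ∧ q ≤ x ∧ a < q ∧
      (x : ℝ) ^ ε * (((x : ℝ) / q) ^ (1 / 2 : ℝ) + (x : ℝ) ^ (1 / 4 : ℝ)) < ‖psi χ t x q a‖}).toReal ≤
      C * (r.totient * T) * (R₀ : ℝ) ^ (-A) := by
  intro ε A hε hA
  obtain ⟨c, C, hc, hC, h⟩ := Pool.Agent.N282.MG.C_main ε A hε hA
  refine ⟨c, C, hc, hC, fun r hr T R₀ hT hR₀ => ?_⟩
  have e : ∀ (χ : DirichletCharacter ℂ r) (t : ℝ) (x q a : ℕ), psi χ t x q a = Pool.Agent.N282.MG.psc χ t x q a := by
    intro χ t x q a
    rfl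
  simp only [e]
  exact h r hr T R₀ hT hR₀

end Pool.Agent.Results.MP_9cfc0a_nt.ComplexTwists
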