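import Mathlib
import Pool.Agent.N944.NL.D
import Pool.Agent.N740.HK.Lim

/-!
# The errors over the classes follow the normal law, for every modulus, in sequential random models

The integers are decided one after the other; the conditional probability of choosing `n + 1`, given the
decisions up to `n`, is asymptotic to `1 / log n` almost surely; nothing is assumed about independence.
Almost surely, as `x → ∞`, uniformly in ALL moduli `q` for which `q / log x` and `x / (q log x)` are large,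
the deviations of the weighted counts in the `q` classes, divided by `√(x log x / q)`, follow the normal law.
In the monotone models (in particular in Hawkins' random sieve) the same holds for
`ψ(x, q, a) - ψ(x) / q`: for all these moduli the error in the problem has exactly the order `√(x log x / q)`
in almost all classes, and it is Gaussian.

Method (`Pool/Agent/N944/NL`): for the characteristic function `exp (i θ D_a)` of the deviation of a class one
telescopes against the powers `(1 - θ² log x / 2) ^ N`, `N` the number of the members of the class; the sum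
over all classes is then a sum over time, a martingale transform with bounded complex weights, controlled by
the exponential supermartingale of helper909 (`Pool/Agent/N909/TF`) for all `q ≤ x` and a grid of `θ` at
once, plus a drift that is small since the conditional probabilities are asymptotic to `1 / log n`.
Lévy's theorem in the quantitative form of helper786 (`Pool/Agent/N786/E/Levy`) finishes the proof.
-/

set_option autoImplicit false

open MeasureTheory Filter Set
open scoped Topology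

namespace Pool.Agent.Results.MP_9cfc0a_nt.NormalLawEveryModulus

variable {Ω : Type}

/-- the conditional probability of choosing `n + 1` given the decisions up to `n` -/
noncomputable def cp [m : MeasurableSpace Ω] (μ : Measure Ω) (ℱ : Filtration ℕ m) (A : ℕ → Set Ω)
    (n : ℕ) (ω : Ω) : ℝ := (μ[(A (n + 1)).indicator (fun _ => (1 : ℝ)) | ℱ n]) ω

/-- `A n` is the event that `n` is chosen; adapted to `ℱ`; the conditional probability of `A (n + 1)`
times `log n` tends to `1`, almost surely -/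
def SequentialModel [m : MeasurableSpace Ω] (μ : Measure Ω) (ℱ : Filtration ℕ m) (A : ℕ → Set Ω) : Prop :=
  (∀ n, MeasurableSet[ℱ n] (A n)) ∧ ∀ᵐ ω ∂μ, Tendsto (fun n : ℕ => cp μ ℱ A n ω * Real.log n) atTop (𝓝 1)

/-- the conditional probabilities are non-increasing in `n ≥ 2`, almost surely -/
def Monotone [m : MeasurableSpace Ω] (μ : Measure Ω) (ℱ : Filtration ℕ m) (A : ℕ → Set Ω) : Prop :=
  ∀ᵐ ω ∂μ, ∀ n : ℕ, 2 ≤ n → cp μ ℱ A (n + 1) ω ≤ cp μ ℱ A n ω

open Classical in
/-- The random sieve of Hawkins: `2` is chosen, and given the decisions up to `n ≥ 2` the number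
`n + 1` is chosen with probability `∏ (1 - 1 / h)`, the product over the chosen `2 ≤ h ≤ n`. -/
def HawkinsSieve [m : MeasurableSpace Ω] (μ : Measure Ω) (ℱ : Filtration ℕ m) (A : ℕ → Set Ω) : Prop :=
  (∀ n, MeasurableSet[ℱ n] (A n)) ∧ A 2 = univ ∧
  ∀ n, 2 ≤ n → μ[(A (n + 1)).indicator (fun _ => (1 : ℝ)) | ℱ n] =ᵐ[μ]
    fun ω => ∏ h ∈ Finset.Icc 2 n, if ω ∈ A h then 1 - 1 / (h : ℝ) else 1

open Classical in
/-- the sum of `log n` over the chosen `n ≤ x`, `n ≡ a` modulo `q` -/
noncomputable def psi (A : ℕ → Set Ω) (ω : Ω) (x q a : ℕ) : ℝ :=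
  ∑ n ∈ (Finset.Icc 1 x).filter (fun n => n ≡ a [MOD q]), if ω ∈ A n then Real.log n else 0

open Classical in
/-- the sum of `log n (1[n is chosen] - P(n is chosen | past))` over the `n ≤ x`, `n ≡ a` modulo `q` -/
noncomputable def dev [m : MeasurableSpace Ω] (μ : Measure Ω) (ℱ : Filtration ℕ m) (A : ℕ → Set Ω)
    (ω : Ω) (x q a : ℕ) : ℝ :=
  ∑ n ∈ (Finset.Icc 1 x).filter (fun n => n ≡ a [MOD q]),
    Real.log n * ((if ω ∈ A n then 1 else 0) - cp μ ℱ A (n - 1) ω)

open Classical in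
/-- the proportion of the classes `1 ≤ a ≤ q` in which `E a` is at most `t √(x log x / q)` -/
noncomputable def prop (E : ℕ → ℝ) (x q : ℕ) (t : ℝ) : ℝ :=
  (((Finset.Icc 1 q).filter (fun a => E a ≤ t * √((x : ℝ) * Real.log x / q))).card : ℝ) / q

/-- the distribution function of the standard normal law -/
noncomputable def Phi (t : ℝ) : ℝ := (√(2 * Real.pi))⁻¹ * ∫ y in Iic t, Real.exp (-(y ^ 2) / 2)

open Pool.Agent.R528.RM Pool.Agent.N893.SM Pool.Agent.N944.MV Pool.Agent.N944.NL

lemma In_eq (A : ℕ → Set Ω) (n : ℕ) (ω : Ω) [Decidable (ω ∈ A n)] : (if ω ∈ A n then (1 : ℝ) else 0) = In A n ω := by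
  unfold In
  split_ifs with h
  · rw [indicator_of_mem h]
  · rw [indicator_of_notMem h]

lemma psi_eq (A : ℕ → Set Ω) (ω : Ω) (x q a : ℕ) : psi A ω x q a = ps A x q a ω := by
  classical
  unfold psi ps SA
  refine Finset.sum_congr rfl fun n _ => ?_
  show (if ω ∈ A n then Real.log n else 0) = Real.log n * In A n ω
  rw [← In_eq]
  split_ifs <;> simp

lemma dev_eq [m : MeasurableSpace Ω] (μ : Measure Ω) (ℱ : Filtration ℕ m) (A : ℕ → Set Ω) (ω : Ω) (x q a : ℕ) :
    dev μ ℱ A ω x q a = dv μ ℱ A x q a ω := by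
  classical
  unfold dev dv SA
  refine Finset.sum_congr rfl fun n _ => ?_
  rw [In_eq]
  rfl

end Pool.Agent.Results.MP_9cfc0a_nt.NormalLawEveryModulus

open Pool.Agent.Results.MP_9cfc0a_nt.NormalLawEveryModulus
open Pool.Agent.R528.RM Pool.Agent.N893.SM Pool.Agent.N944.MV Pool.Agent.N944.NL

/-- Hawkins' sieve is a monotone sequential model.  (1) In every sequential model, almost surely, for
all real `t` and `ε > 0` there is `K` such that for all large `x` and ALL `q` with `K log x ≤ q` and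
`K q log x ≤ x` the proportion of the classes `a` modulo `q` with `dev x q a ≤ t √(x log x / q)` is within
`ε` of `Phi t`.  (2) If the model is monotone, the same holds for `ψ(x, q, a) - ψ(x) / q`. -/
theorem Pool.Agent.Results.MP_9cfc0a_nt.NormalLawEveryModulus.result
    {Ω : Type} [m : MeasurableSpace Ω] (μ : Measure Ω) [IsProbabilityMeasure μ]
    (ℱ : Filtration ℕ m) (A : ℕ → Set Ω) :
    (HawkinsSieve μ ℱ A → SequentialModel μ ℱ A ∧ Monotone μ ℱ A) ∧
    (SequentialModel μ ℱ A → ∀ᵐ ω ∂μ, ∀ t ε : ℝ, 0 < ε → ∃ K : ℝ, 1 ≤ K ∧ ∀ᶠ x : ℕ in atTop, ∀ q : ℕ,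
      K * Real.log x ≤ q → K * q * Real.log x ≤ x → |prop (fun a => dev μ ℱ A ω x q a) x q t - Phi t| ≤ ε) ∧
    (SequentialModel μ ℱ A → Monotone μ ℱ A → ∀ᵐ ω ∂μ, ∀ t ε : ℝ, 0 < ε → ∃ K : ℝ, 1 ≤ K ∧
      ∀ᶠ x : ℕ in atTop, ∀ q : ℕ, K * Real.log x ≤ q → K * q * Real.log x ≤ x →
      |prop (fun a => psi A ω x q a - psi A ω x 1 1 / q) x q t - Phi t| ≤ ε) := by
  classical
  have hawk : HawkinsSieve μ ℱ A → SequentialModel μ ℱ A ∧ Monotone μ ℱ A := by
    rintro ⟨h1, h2, h3⟩
    have hs : Pool.Agent.N740.HK.HS μ ℱ A := ⟨h1, h2, fun n hn => by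
      filter_upwards [h3 n hn] with ω hω
      have e : (∏ h ∈ Finset.Icc 2 n, if ω ∈ A h then 1 - 1 / (h : ℝ) else 1) =
          (Pool.Agent.N740.HK.Y A n ω)⁻¹ := by
        unfold Pool.Agent.N740.HK.Y
        rw [← Finset.prod_inv_distrib]
        refine Finset.prod_congr rfl fun h hh => ?_
        have h2 : (2 : ℝ) ≤ h := by exact_mod_cast (Finset.mem_Icc.1 hh).1
        by_cases hA : ω ∈ A h
        · rw [if_pos hA, if_pos hA, inv_div]
          field_simp
        · rw [if_neg hA, if_neg hA, inv_one]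
      rw [← e]
      exact hω⟩
    refine ⟨⟨h1, ?_⟩, ?_⟩
    · filter_upwards [Pool.Agent.N740.HK.hawk_dens hs] with ω hω
      exact hω
    · have hall : ∀ᵐ ω ∂μ, ∀ n, 2 ≤ n → cp μ ℱ A n ω = ∏ h ∈ Finset.Icc 2 n, (if ω ∈ A h then 1 - 1 / (h : ℝ) else 1) := by
        rw [ae_all_iff]
        intro n
        by_cases hn : 2 ≤ n
        · filter_upwards [h3 n hn] with ω hω _
          exact hω
        · exact Eventually.of_forall fun ω h => absurd h hn
      filter_upwards [hall] with ω hω n hn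
      have hfac : ∀ h : ℕ, 2 ≤ h → 0 ≤ (if ω ∈ A h then 1 - 1 / (h : ℝ) else 1) ∧ (if ω ∈ A h then 1 - 1 / (h : ℝ) else 1) ≤ 1 := by
        intro h hh
        have h2 : (2 : ℝ) ≤ h := by exact_mod_cast hh
        have h3 : 1 / (h : ℝ) ≤ 1 / 2 := one_div_le_one_div_of_le (by norm_num) h2
        have h4 : 0 ≤ 1 / (h : ℝ) := by positivity
        split_ifs
        · constructor <;> linarith
        · norm_num
      rw [hω n hn, hω (n + 1) (by omega)]
      rw [← Finset.insert_Icc_right_eq_Icc_add_one (by omega), Finset.prod_insert (by simp)]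
      exact mul_le_of_le_one_left (Finset.prod_nonneg fun h hh => (hfac h (Finset.mem_Icc.1 hh).1).1) (hfac (n + 1) (by omega)).2
  -- almost sure facts
  have key : SequentialModel μ ℱ A → ∀ᵐ ω ∂μ, (∀ n, 0 ≤ dens μ ℱ A n ω ∧ dens μ ℱ A n ω ≤ 1) ∧
      Tendsto (fun n : ℕ => dens μ ℱ A n ω * Real.log n) atTop (𝓝 1) ∧
      (∃ B : ℝ, 1 ≤ B ∧ (∀ n : ℕ, 2 ≤ n → dens μ ℱ A n ω * Real.log n ≤ B)) ∧ (∃ C : ℝ, 1 ≤ C ∧
        (∀ x q a : ℕ, 2 ≤ x → 1 ≤ q → q ≤ x → 1 ≤ a → a ≤ q →
          |SA (dif μ ℱ A ω) x q a| ≤ C * (√((x : ℝ) / q) + Real.log x))) ∧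
        ∀ᶠ x : ℕ in atTop, ∀ q i : ℕ, 1 ≤ q → q ≤ x → i ≤ 2 * x ^ 4 → ∀ (s : ℝ) (c : Bool), s = 1 ∨ s = -1 →
          Pool.Agent.N909.TF.Ex μ ℱ A (tt x) (wr μ ℱ A s c (|th x q i| * Real.log x) (th x q i) (bb' x q i) x q) x ω < 10 * Real.log x ∧
          Pool.Agent.N909.TF.Ex μ ℱ A (-tt x) (wr μ ℱ A s c (|th x q i| * Real.log x) (th x q i) (bb' x q i) x q) x ω < 10 * Real.log x := by
    rintro ⟨hA, hd⟩
    have h01 : ∀ᵐ ω ∂μ, ∀ n, 0 ≤ dens μ ℱ A n ω ∧ dens μ ℱ A n ω ≤ 1 := ae_all_iff.2 fun n => dens01 hA n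
    filter_upwards [h01, hd, errM (μ := μ) hA, errN (μ := μ) hA] with ω h01 hd he hX
    have hd' : Tendsto (fun n : ℕ => dens μ ℱ A n ω * Real.log n) atTop (𝓝 1) := hd
    have hb : ∃ B : ℝ, ∀ n : ℕ, 2 ≤ n → dens μ ℱ A n ω * Real.log n ≤ B := by
      obtain ⟨B, hB⟩ := hd'.bddAbove_range
      exact ⟨B, fun n _ => hB ⟨n, rfl⟩⟩
    obtain ⟨C, hC, hM⟩ := mont (μ := μ) h01 hb he
    obtain ⟨B, hB⟩ := hb
    exact ⟨h01, hd', ⟨max B 1, le_max_right _ _, fun n hn => (hB n hn).trans (le_max_left _ _)⟩, ⟨C, hC, hM⟩, hX⟩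
  refine ⟨hawk, fun hm => ?_, fun hm hmono => ?_⟩
  · filter_upwards [key hm] with ω ⟨h01, hl, ⟨B, hB, hd⟩, _, hX⟩ t ε hε
    obtain ⟨K, η, hK, hη, h⟩ := normal_law (μ := μ) (ℱ := ℱ) (A := A) h01 hB hd hl hX t hε
    refine ⟨K, hK, ?_⟩
    filter_upwards [h] with x hx q hq1 hq2
    have h1 := hx q hq1 hq2 (fun _ => 0) (fun a _ => by
      rw [abs_zero]
      exact mul_nonneg hη.le (Real.sqrt_nonneg _))
    have e1 : prop (fun a => dev μ ℱ A ω x q a) x q t =
        (((Finset.Icc 1 q).filter (fun a => dv μ ℱ A x q a ω + 0 ≤ t * sg x q)).card : ℝ) / q := by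
      unfold prop
      congr 2
      refine congrArg Finset.card (Finset.filter_congr fun a _ => ?_)
      beta_reduce
      rw [dev_eq, add_zero]
      rfl
    rw [e1]
    exact h1
  · filter_upwards [key hm, hmono] with ω ⟨h01, hl, ⟨B, hB, hd⟩, ⟨C, hC, hM⟩, hX⟩ hmono t ε hε
    obtain ⟨K, hK, h⟩ := normal_psi (μ := μ) (ℱ := ℱ) (A := A) h01 hB hd hl hX (lam := fun n => dens μ ℱ A n ω)
      (fun n hn => ⟨(h01 n).1, hmono n hn, rfl⟩) hC hM t hε
    refine ⟨K, hK, ?_⟩
    filter_upwards [h] with x hx q hq1 hq2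
    have h1 := hx q hq1 hq2
    have e1 : prop (fun a => psi A ω x q a - psi A ω x 1 1 / q) x q t =
        (((Finset.Icc 1 q).filter (fun a => ps A x q a ω - ps A x 1 1 ω / q ≤ t * sg x q)).card : ℝ) / q := by
      unfold prop
      congr 2
      refine congrArg Finset.card (Finset.filter_congr fun a _ => ?_)
      beta_reduce
      rw [psi_eq, psi_eq]
      rfl
    rw [e1]
    exact h1
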