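import Mathlib
import Pool.Agent.N735.CL.Ap7
import Pool.Agent.N735.CL.Cl7
import Pool.Agent.N735.CL.Cl8

/-!
# The exact size of the fluctuations of the primes in residue classes, for almost all patterns

Montgomery's conjecture says that `ψ(x; q, a) - x/φ(q)` is at most `x^(1/2+ε) q^(-1/2)`: in a set of `K`
consecutive integers the number of the primes `≡ a (mod q)` should differ from its expected value by at most
`(K/q)^(1/2) K^ε`. We replace the `K` consecutive integers by an arbitrary pattern `h_1, ..., h_K` of numbers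
from `{1, ..., X}` and its translates `x + h_1, ..., x + h_K`, `1 ≤ x ≤ X`, and determine, for a fixed modulus
`q` and for almost all patterns of length `K`, where `K ≥ C log² X` is arbitrary, the exact order of the largest
difference: it is `(1 + o(1)) (2K/φ(q))^(1/2)` for every reduced class, in both directions, and for an arbitrary
function `c` of the residue modulo `q` the largest value of
`∑_{x + h_i prime} c(x + h_i) - (its expected value)` is `(1 + o(1)) (2 V K)^(1/2)`, where `V` is the mean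
value of `c²` over the reduced classes. For two different classes this gives the race
`(1 + o(1)) (4K/φ(q))^(1/2)`.

The upper bound is an exponential moment and a union bound. For the lower bound the translates by the multiples of
`q ∏_{p ≤ w} p` are used, with a weight which depends on the residues modulo `q`. The number of the prime pairs in a
residue class is found, for almost all differences, with the estimates for bilinear forms and with the
Bombieri–Vinogradov theorem of the starting files.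
-/

set_option autoImplicit false
set_option maxHeartbeats 1000000

namespace Pool.Agent.Results.MP_9cfc0a_nt.ResidueClassesForPatterns

open Finset Filter Topology

/-- the patterns: the sequences of `K` numbers from `{1, ..., X}` -/
def patterns (X K : ℕ) : Finset (Fin K → ℕ) := Fintype.piFinset fun _ => Icc 1 X

open Classical in
/-- the proportion of the patterns which have the property `B` -/
noncomputable def proportion (X K : ℕ) (B : (Fin K → ℕ) → Prop) : ℝ :=
  (((patterns X K).filter B).card : ℝ) / (patterns X K).card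

/-- the sum of `c(x + h_i)` over the `i` with `x + h_i` prime -/
noncomputable def total {q K : ℕ} (c : ZMod q → ℝ) (h : Fin K → ℕ) (x : ℕ) : ℝ :=
  ∑ i ∈ univ.filter (fun i : Fin K => (x + h i).Prime), c ((x + h i : ℕ) : ZMod q)

/-- the mean value of `c(n)` times the indicator function of the primes over `x < n ≤ x + X` -/
noncomputable def mean {q : ℕ} (c : ZMod q → ℝ) (X x : ℕ) : ℝ :=
  (∑ p ∈ (Ioc x (x + X)).filter Nat.Prime, c (p : ZMod q)) / X

/-- the largest excess of the sum over its expected value -/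
noncomputable def excess {q K : ℕ} (c : ZMod q → ℝ) (X : ℕ) (h : Fin K → ℕ) : ℝ :=
  sSup ((fun x : ℕ => total c h x - K * mean c X x) '' Set.Icc 1 X)

/-- the mean square of `c` over the reduced classes -/
noncomputable def meanSq {q : ℕ} (c : ZMod q → ℝ) : ℝ :=
  (∑ a ∈ (range q).filter (fun a => a.Coprime q), c (a : ZMod q) ^ 2) / Nat.totient q

/-- the largest value of the sum, without a centering -/
noncomputable def peak {q K : ℕ} (c : ZMod q → ℝ) (X : ℕ) (h : Fin K → ℕ) : ℝ :=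
  sSup ((fun x : ℕ => total c h x) '' Set.Icc 1 X)

/-- the number of the primes `≡ a (mod q)` among the `x + h_i` -/
def classCount {K : ℕ} (q a : ℕ) (h : Fin K → ℕ) (x : ℕ) : ℕ :=
  (univ.filter (fun i : Fin K => (x + h i).Prime ∧ x + h i ≡ a [MOD q])).card

/-- the density of the primes `≡ a (mod q)` in `(x, x + X]` -/
noncomputable def classDens (q a X x : ℕ) : ℝ :=
  (((Ioc x (x + X)).filter (fun p => p.Prime ∧ p ≡ a [MOD q])).card : ℝ) / X

/-- the largest excess of the number of the primes `≡ a (mod q)` over its expected value -/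
noncomputable def classExcess {K : ℕ} (q a X : ℕ) (h : Fin K → ℕ) : ℝ :=
  sSup ((fun x : ℕ => (classCount q a h x : ℝ) - K * classDens q a X x) '' Set.Icc 1 X)

/-- the largest deficit of the number of the primes `≡ a (mod q)` from its expected value -/
noncomputable def classDeficit {K : ℕ} (q a X : ℕ) (h : Fin K → ℕ) : ℝ :=
  sSup ((fun x : ℕ => K * classDens q a X x - (classCount q a h x : ℝ)) '' Set.Icc 1 X)

/-- the largest lead of the primes `≡ a (mod q)` over the primes `≡ b (mod q)` -/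
noncomputable def race {K : ℕ} (q a b X : ℕ) (h : Fin K → ℕ) : ℝ :=
  sSup ((fun x : ℕ => (classCount q a h x : ℝ) - classCount q b h x) '' Set.Icc 1 X)

/-- the indicator function of a class -/
noncomputable def ind (q a : ℕ) : ZMod q → ℝ := fun z => if z = (a : ZMod q) then 1 else 0

lemma prop_eq {X K : ℕ} (B : (Fin K → ℕ) → Prop) : proportion X K B = Pool.Agent.N735.CL.PK X K B := by
  classical
  rw [Pool.Agent.N735.CL.PK_eq]
  unfold proportion
  have h0 : patterns X K = Pool.Agent.N735.CL.Om X K := rfl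
  rw [h0, Pool.Agent.N735.CL.card_Om]
  push_cast
  congr!

lemma sup_bound (f : ℕ → ℝ) (X : ℕ) (lo hi : ℝ) (h1 : ∃ m ∈ Icc 1 X, lo ≤ f m) (h2 : ∀ m ∈ Icc 1 X, f m ≤ hi) :
    lo ≤ sSup (f '' Set.Icc 1 X) ∧ sSup (f '' Set.Icc 1 X) ≤ hi := by
  obtain ⟨m, hm, hlo⟩ := h1
  have hm' : m ∈ Set.Icc 1 X := by rw [mem_Icc] at hm; exact hm
  have hbd : ∀ y ∈ f '' Set.Icc 1 X, y ≤ hi := by
    rintro y ⟨k, hk, rfl⟩
    exact h2 k (mem_Icc.2 hk)
  constructor
  · exact hlo.trans (le_csSup ⟨hi, hbd⟩ ⟨m, hm', rfl⟩)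
  · exact csSup_le ⟨f m, m, hm', rfl⟩ hbd

lemma total_eq {q K : ℕ} (c : ZMod q → ℝ) (M : ℝ) (hM : 0 < M) (h : Fin K → ℕ) (x : ℕ) :
    Pool.Agent.N735.CL.Nc (fun n => c (n : ZMod q) / M) h x = total c h x / M := by
  unfold Pool.Agent.N735.CL.Nc Pool.Agent.N735.CL.cp Pool.Agent.N735.CL.pr total
  rw [sum_filter, sum_div]
  apply sum_congr rfl
  intro i _
  split_ifs <;> simp

lemma mean_eq {q : ℕ} (c : ZMod q → ℝ) (M : ℝ) (hM : 0 < M) (X x : ℕ) :
    Pool.Agent.N735.CL.Bc (fun n => c (n : ZMod q) / M) X x = mean c X x / M := by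
  unfold Pool.Agent.N735.CL.Bc Pool.Agent.N735.CL.E1 Pool.Agent.N735.CL.cp Pool.Agent.N735.CL.pr mean
  have h1 : ∑ p ∈ (Ioc x (x + X)).filter Nat.Prime, c (p : ZMod q) = ∑ h ∈ Icc 1 X, (if (x + h).Prime then c ((x + h : ℕ) : ZMod q) else 0) := by
    rw [sum_filter]
    symm
    apply sum_bij (fun h _ => x + h)
    · intro h hh
      rw [mem_Icc] at hh
      rw [mem_Ioc]; omega
    · intro a _ b _ hab
      omega
    · intro b hb
      rw [mem_Ioc] at hb
      exact ⟨b - x, mem_Icc.2 ⟨by omega, by omega⟩, by omega⟩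
    · intro h _
      rfl
  rw [h1, div_right_comm, sum_div _ _ M]
  congr 1
  apply sum_congr rfl
  intro h _
  split_ifs <;> simp

/-- the general law -/
theorem general {q : ℕ} (hq : 1 ≤ q) (c : ZMod q → ℝ) (hV : 0 < meanSq c) (ε' θ : ℝ) (hε' : 0 < ε') (hθ : 0 < θ) :
    ∃ C : ℝ, ∃ X₀ : ℕ, ∀ X : ℕ, X₀ ≤ X → ∀ K : ℕ, C * Real.log X ^ 2 ≤ K →
      1 - θ ≤ proportion X K (fun h => |excess c X h - Real.sqrt (2 * meanSq c * K)| ≤ ε' * Real.sqrt (2 * meanSq c * K) ∧
        |excess (-c) X h - Real.sqrt (2 * meanSq c * K)| ≤ ε' * Real.sqrt (2 * meanSq c * K)) := by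
  haveI : NeZero q := ⟨by omega⟩
  obtain ⟨M, hM0, hM⟩ : ∃ M : ℝ, 0 < M ∧ ∀ a : ZMod q, |c a| ≤ M := by
    refine ⟨∑ a : ZMod q, |c a| + 1, ?_, fun a => ?_⟩
    · have : 0 ≤ ∑ a : ZMod q, |c a| := sum_nonneg (fun _ _ => abs_nonneg _)
      linarith
    · have := single_le_sum (f := fun a : ZMod q => |c a|) (fun _ _ => abs_nonneg _) (mem_univ a)
      linarith
  set f : ℕ → ℝ := fun n => c (n : ZMod q) / M with hf
  have hper : ∀ m h, q ∣ m → f (m + h) = f h := by
    intro m h hd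
    simp only [hf]
    have : ((m + h : ℕ) : ZMod q) = (h : ZMod q) := by
      rw [Nat.cast_add, (ZMod.natCast_eq_zero_iff m q).2 hd, zero_add]
    rw [this]
  have hf1 : ∀ n, |f n| ≤ 1 := by
    intro n
    simp only [hf]
    rw [abs_div, abs_of_pos hM0, div_le_one hM0]
    exact hM _
  have hv : (∑ a ∈ Pool.Agent.N735.CL.Cq q, f a ^ 2) / (Nat.totient q : ℝ) = meanSq c / M ^ 2 := by
    unfold meanSq Pool.Agent.N735.CL.Cq
    rw [div_div, mul_comm, ← div_div]
    congr 1
    rw [sum_div]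
    apply sum_congr rfl
    intro a _
    simp only [hf]
    rw [div_pow]
  have hv0 : 0 < (∑ a ∈ Pool.Agent.N735.CL.Cq q, f a ^ 2) / (Nat.totient q : ℝ) := by rw [hv]; positivity
  have hn := Pool.Agent.N735.CL.nice hq hper hf1 hv0
  rw [hv] at hn hv0
  set v := meanSq c / M ^ 2 with hvd
  set ε := min ε' 1 with hε
  have hε0 : 0 < ε := lt_min hε' one_pos
  have hε1 : ε ≤ 1 := min_le_right _ _
  have hεε : ε ≤ ε' := min_le_left _ _
  obtain ⟨X₀, hX₀⟩ := eventually_atTop.1 (Pool.Agent.N735.CL.devc_law hn ε θ hε0 hε1 hθ)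
  refine ⟨131072 / (ε ^ 2 * v ^ 3), max X₀ 1, fun X hX K hK => ?_⟩
  have hX1 : 1 ≤ X := (le_max_right _ _).trans hX
  have h1 := hX₀ X ((le_max_left _ _).trans hX) K hK
  rw [prop_eq]
  set S := Real.sqrt (2 * meanSq c * K) with hS
  have hSv : Real.sqrt (2 * v * K) = S / M := by
    have e : 2 * v * K = (2 * meanSq c * K) / M ^ 2 := by rw [hvd]; ring
    rw [e, Real.sqrt_div' _ (by positivity), Real.sqrt_sq hM0.le]
  rw [hSv] at h1
  have hS0 : 0 ≤ S := Real.sqrt_nonneg _
  have hεS : ε * S ≤ ε' * S := mul_le_mul_of_nonneg_right hεε hS0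
  have hdev : ∀ (h : Fin K → ℕ) (m : ℕ), Pool.Agent.N735.CL.Nc f h m - K * Pool.Agent.N735.CL.Bc f X m = (total c h m - K * mean c X m) / M := by
    intro h m
    rw [total_eq c M hM0, mean_eq c M hM0]
    ring
  have hneg : ∀ (h : Fin K → ℕ) (m : ℕ), total (-c) h m - K * mean (-c) X m = -(total c h m - K * mean c X m) := by
    intro h m
    unfold total mean
    simp only [Pi.neg_apply, sum_neg_distrib]
    ring
  have h2 : (1 : ℝ) ≤ Pool.Agent.N735.CL.PK X K (fun h => (|excess c X h - S| ≤ ε' * S ∧ |excess (-c) X h - S| ≤ ε' * S) ∨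
      ¬ ∀ σ : ℝ, (σ = 1 ∨ σ = -1) →
        (∃ m ∈ Icc 1 X, (1 - ε) * (S / M) ≤ σ * (Pool.Agent.N735.CL.Nc f h m - K * Pool.Agent.N735.CL.Bc f X m)) ∧
        (∀ m ∈ Icc 1 X, σ * (Pool.Agent.N735.CL.Nc f h m - K * Pool.Agent.N735.CL.Bc f X m) ≤ (1 + ε) * (S / M))) := by
    apply Pool.Agent.N735.CL.one_le_PK hX1
    intro h
    by_cases hc : ∀ σ : ℝ, (σ = 1 ∨ σ = -1) →
        (∃ m ∈ Icc 1 X, (1 - ε) * (S / M) ≤ σ * (Pool.Agent.N735.CL.Nc f h m - K * Pool.Agent.N735.CL.Bc f X m)) ∧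
        (∀ m ∈ Icc 1 X, σ * (Pool.Agent.N735.CL.Nc f h m - K * Pool.Agent.N735.CL.Bc f X m) ≤ (1 + ε) * (S / M))
    · left
      have hconv : ∀ σ : ℝ, ∀ y : ℝ, ((1 - ε) * (S / M) ≤ σ * (y / M) ↔ (1 - ε) * S ≤ σ * y) ∧
          (σ * (y / M) ≤ (1 + ε) * (S / M) ↔ σ * y ≤ (1 + ε) * S) := by
        intro σ y
        rw [mul_div_assoc', mul_div_assoc', mul_div_assoc', div_le_div_iff_of_pos_right hM0, div_le_div_iff_of_pos_right hM0]
        exact ⟨Iff.rfl, Iff.rfl⟩
      constructor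
      · obtain ⟨u1, u2⟩ := hc 1 (Or.inl rfl)
        have h3 := sup_bound (fun x : ℕ => total c h x - K * mean c X x) X ((1 - ε) * S) ((1 + ε) * S)
          (by
            obtain ⟨m, hm, hm2⟩ := u1
            rw [hdev] at hm2
            refine ⟨m, hm, ?_⟩
            have := ((hconv 1 _).1).1 hm2
            rwa [one_mul] at this)
          (by
            intro m hm
            have := u2 m hm
            rw [hdev] at this
            have := ((hconv 1 _).2).1 this
            rwa [one_mul] at this)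
        unfold excess
        rw [abs_le]
        constructor <;> linarith [h3.1, h3.2]
      · obtain ⟨u1, u2⟩ := hc (-1) (Or.inr rfl)
        have h3 := sup_bound (fun x : ℕ => total (-c) h x - K * mean (-c) X x) X ((1 - ε) * S) ((1 + ε) * S)
          (by
            obtain ⟨m, hm, hm2⟩ := u1
            rw [hdev] at hm2
            refine ⟨m, hm, ?_⟩
            have := ((hconv (-1) _).1).1 hm2
            simp only [hneg]
            linarith)
          (by
            intro m hm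
            have := u2 m hm
            rw [hdev] at this
            have := ((hconv (-1) _).2).1 this
            simp only [hneg]
            linarith)
        unfold excess
        rw [abs_le]
        constructor <;> linarith [h3.1, h3.2]
    · right; exact hc
  have h3 := h2.trans (Pool.Agent.N735.CL.PK_or _ _)
  linarith

lemma sup_close (f g : ℕ → ℝ) (X : ℕ) (hX : 1 ≤ X) (t : ℝ) (h : ∀ m ∈ Icc 1 X, |f m - g m| ≤ t) :
    |sSup (f '' Set.Icc 1 X) - sSup (g '' Set.Icc 1 X)| ≤ t := by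
  have hfin : (Set.Icc 1 X : Set ℕ).Finite := Set.finite_Icc 1 X
  have hne : (Set.Icc 1 X : Set ℕ).Nonempty := ⟨1, le_rfl, hX⟩
  have key : ∀ u v : ℕ → ℝ, (∀ m ∈ Icc 1 X, |u m - v m| ≤ t) → sSup (u '' Set.Icc 1 X) ≤ sSup (v '' Set.Icc 1 X) + t := by
    intro u v huv
    apply csSup_le (hne.image u)
    rintro _ ⟨k, hk, rfl⟩
    have h1 := (abs_le.1 (huv k (mem_Icc.2 hk))).2
    have h2 : v k ≤ sSup (v '' Set.Icc 1 X) := le_csSup (hfin.image v).bddAbove ⟨k, hk, rfl⟩
    linarith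
  rw [abs_le]
  have a1 := key f g h
  have a2 := key g f (fun m hm => by rw [abs_sub_comm]; exact h m hm)
  constructor <;> linarith

lemma classCount_eq {K : ℕ} (q a : ℕ) (h : Fin K → ℕ) (x : ℕ) : (classCount q a h x : ℝ) = Pool.Agent.N735.CL.Ncl q a h x := by
  unfold classCount Pool.Agent.N735.CL.Ncl Pool.Agent.N735.CL.ic Pool.Agent.N735.CL.pr
  rw [card_filter]
  push_cast
  apply sum_congr rfl
  intro i _
  by_cases h1 : (x + h i).Prime <;> by_cases h2 : x + h i ≡ a [MOD q] <;> simp [h1, h2]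

lemma classDens_eq (q a X x : ℕ) : classDens q a X x = Pool.Agent.N735.CL.pcl q a X x := by
  unfold classDens Pool.Agent.N735.CL.pcl Pool.Agent.N735.CL.E1 Pool.Agent.N735.CL.ic Pool.Agent.N735.CL.pr
  congr 1
  rw [card_filter]
  push_cast
  symm
  apply sum_bij (fun h _ => x + h)
  · intro h hh
    rw [mem_Icc] at hh
    rw [mem_Ioc]; omega
  · intro a _ b _ hab
    omega
  · intro b hb
    rw [mem_Ioc] at hb
    exact ⟨b - x, mem_Icc.2 ⟨by omega, by omega⟩, by omega⟩
  · intro h _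
    by_cases h1 : (x + h).Prime <;> by_cases h2 : x + h ≡ a [MOD q] <;> simp [h1, h2]

lemma classCount_mod {K : ℕ} (q a : ℕ) (h : Fin K → ℕ) (x : ℕ) : classCount q (a % q) h x = classCount q a h x := by
  unfold classCount
  congr 2
  ext i
  have : x + h i ≡ a % q [MOD q] ↔ x + h i ≡ a [MOD q] :=
    ⟨fun h => h.trans (Nat.mod_modEq a q), fun h => h.trans (Nat.mod_modEq a q).symm⟩
  rw [this]

lemma classDens_mod (q a X x : ℕ) : classDens q (a % q) X x = classDens q a X x := by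
  unfold classDens
  congr 3
  ext i
  have : i ≡ a % q [MOD q] ↔ i ≡ a [MOD q] :=
    ⟨fun h => h.trans (Nat.mod_modEq a q), fun h => h.trans (Nat.mod_modEq a q).symm⟩
  rw [mem_filter, mem_filter, this]

lemma total_ind {K : ℕ} (q a : ℕ) (h : Fin K → ℕ) (x : ℕ) : total (ind q a) h x = classCount q a h x := by
  unfold total classCount ind
  rw [← sum_filter, filter_filter, sum_const, nsmul_eq_mul, mul_one]
  congr 3
  ext i
  rw [ZMod.natCast_eq_natCast_iff]

lemma mean_ind (q a X x : ℕ) : mean (ind q a) X x = classDens q a X x := by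
  unfold mean classDens ind
  rw [← sum_filter, filter_filter, sum_const, nsmul_eq_mul, mul_one]
  congr 4
  ext i
  rw [ZMod.natCast_eq_natCast_iff]

lemma ind_ic (q a b : ℕ) : ind q a (b : ZMod q) = Pool.Agent.N735.CL.ic q b a := by
  unfold ind Pool.Agent.N735.CL.ic
  by_cases h : a ≡ b [MOD q]
  · rw [if_pos h, if_pos ((ZMod.natCast_eq_natCast_iff _ _ _).2 h.symm)]
  · rw [if_neg h, if_neg (fun h2 => h ((ZMod.natCast_eq_natCast_iff _ _ _).1 h2).symm)]

lemma sum_ind {q a : ℕ} (hq : 1 ≤ q) (ha : a.Coprime q) : ∑ b ∈ (range q).filter (fun b => b.Coprime q), ind q a (b : ZMod q) = 1 := by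
  have h := Pool.Agent.N735.CL.sum_ic hq (fun _ => (1 : ℝ)) ha
  simp only [one_mul] at h
  refine (sum_congr rfl (fun b _ => ind_ic q a b)).trans ?_
  exact h

lemma ind_sq (q a : ℕ) (z : ZMod q) : ind q a z ^ 2 = ind q a z := by
  unfold ind; split_ifs <;> norm_num

lemma meanSq_ind {q a : ℕ} (hq : 1 ≤ q) (ha : a.Coprime q) : meanSq (ind q a) = 1 / Nat.totient q := by
  unfold meanSq
  have e : ∑ b ∈ (range q).filter (fun b => b.Coprime q), ind q a (b : ZMod q) ^ 2 =
      ∑ b ∈ (range q).filter (fun b => b.Coprime q), ind q a (b : ZMod q) := sum_congr rfl (fun b _ => ind_sq q a _)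
  rw [e, sum_ind hq ha]

lemma meanSq_race {q a b : ℕ} (hq : 1 ≤ q) (ha : a.Coprime q) (hb : b.Coprime q) (hab : ¬ a ≡ b [MOD q]) :
    meanSq (ind q a - ind q b) = 2 / Nat.totient q := by
  unfold meanSq
  have h1 : ∀ z : ZMod q, (ind q a - ind q b) z ^ 2 = ind q a z + ind q b z := by
    intro z
    rw [Pi.sub_apply]
    unfold ind
    by_cases hz : z = (a : ZMod q)
    · by_cases hz2 : z = (b : ZMod q)
      · exfalso
        apply hab
        rw [← ZMod.natCast_eq_natCast_iff, ← hz, hz2]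
      · rw [if_pos hz, if_neg hz2]; norm_num
    · by_cases hz2 : z = (b : ZMod q)
      · rw [if_neg hz, if_pos hz2]; norm_num
      · rw [if_neg hz, if_neg hz2]; norm_num
  have e : ∑ c ∈ (range q).filter (fun c => c.Coprime q), (ind q a - ind q b) (c : ZMod q) ^ 2 =
      ∑ c ∈ (range q).filter (fun c => c.Coprime q), (ind q a (c : ZMod q) + ind q b (c : ZMod q)) := sum_congr rfl (fun c _ => h1 _)
  rw [e, sum_add_distrib, sum_ind hq ha, sum_ind hq hb]
  norm_num

lemma excess_ind {K : ℕ} (q a X : ℕ) (h : Fin K → ℕ) : excess (ind q a) X h = classExcess q a X h := by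
  unfold excess classExcess
  simp only [total_ind, mean_ind]

lemma excess_neg_ind {K : ℕ} (q a X : ℕ) (h : Fin K → ℕ) : excess (-ind q a) X h = classDeficit q a X h := by
  unfold excess classDeficit
  have hneg : ∀ (m : ℕ), total (-ind q a) h m - K * mean (-ind q a) X m = K * classDens q a X m - classCount q a h m := by
    intro m
    rw [← total_ind, ← mean_ind]
    unfold total mean
    simp only [Pi.neg_apply, sum_neg_distrib]
    ring
  simp only [hneg]

lemma peak_race {K : ℕ} (q a b X : ℕ) (h : Fin K → ℕ) : peak (ind q a - ind q b) X h = race q a b X h := by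
  unfold peak race
  have hsub : ∀ (m : ℕ), total (ind q a - ind q b) h m = (classCount q a h m : ℝ) - classCount q b h m := by
    intro m
    rw [← total_ind, ← total_ind]
    unfold total
    simp only [Pi.sub_apply, sum_sub_distrib]
  simp only [hsub]

/-- the upper bound for all moduli -/
theorem uniform (δ : ℝ) (hδ : 0 < δ) : ∃ A : ℝ, ∀ θ : ℝ, 0 < θ → ∃ X₀ : ℕ, ∀ X : ℕ, X₀ ≤ X → ∀ K : ℕ,
    1 - θ ≤ proportion X K (fun h => ∀ q : ℕ, 1 ≤ q → (q : ℝ) ≤ (X : ℝ) ^ (1 - δ) → ∀ a x : ℕ, 1 ≤ x → x ≤ X →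
      |(classCount q a h x : ℝ) - K * classDens q a X x| ≤ A * (Real.sqrt (K / Nat.totient q) + Real.log X)) := by
  refine ⟨66 / δ + 4, fun θ hθ => ?_⟩
  obtain ⟨X₀, hX₀⟩ := eventually_atTop.1 (Pool.Agent.N735.CL.uniform_cls δ hδ θ hθ)
  refine ⟨max X₀ 1, fun X hX K => ?_⟩
  have hX1 : 1 ≤ X := (le_max_right _ _).trans hX
  have hX1r : (1 : ℝ) ≤ X := by exact_mod_cast hX1
  have h1 := hX₀ X ((le_max_left _ _).trans hX) K
  rw [prop_eq]
  have h2 := Pool.Agent.N735.CL.PK_not hX1 (K := K) (fun h => ∀ q : ℕ, 1 ≤ q → (q : ℝ) ≤ (X : ℝ) ^ (1 - δ) → ∀ a x : ℕ, 1 ≤ x → x ≤ X →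
      |(classCount q a h x : ℝ) - K * classDens q a X x| ≤ (66 / δ + 4) * (Real.sqrt (K / Nat.totient q) + Real.log X))
  have h3 := Pool.Agent.N735.CL.PK_mono (X := X) (K := K) (B := fun h => ¬ ∀ q : ℕ, 1 ≤ q → (q : ℝ) ≤ (X : ℝ) ^ (1 - δ) → ∀ a x : ℕ, 1 ≤ x → x ≤ X →
      |(classCount q a h x : ℝ) - K * classDens q a X x| ≤ (66 / δ + 4) * (Real.sqrt (K / Nat.totient q) + Real.log X))
    (C := fun h => ∃ q ∈ Icc 1 X, (q : ℝ) ≤ (X : ℝ) ^ (1 - δ) ∧ ∃ a ∈ range X, ∃ m ∈ Icc 1 X,
      (66 / δ + 4) * (Real.sqrt (K / Nat.totient q) + Real.log X) ≤ |Pool.Agent.N735.CL.Ncl q a h m - K * Pool.Agent.N735.CL.pcl q a X m|) (by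
      intro h _ hh
      push Not at hh
      obtain ⟨q, hq, hqX, a, x, hx1, hxX, hb⟩ := hh
      have hqX' : q ≤ X := by
        have : (q : ℝ) ≤ X := hqX.trans (by
          calc (X : ℝ) ^ (1 - δ) ≤ (X : ℝ) ^ (1 : ℝ) := Real.rpow_le_rpow_of_exponent_le hX1r (by linarith)
            _ = X := Real.rpow_one _)
        exact_mod_cast this
      refine ⟨q, mem_Icc.2 ⟨hq, hqX'⟩, hqX, a % q, mem_range.2 ((Nat.mod_lt a hq).trans_le hqX'), x, mem_Icc.2 ⟨hx1, hxX⟩, ?_⟩
      rw [← classCount_eq, ← classDens_eq, classCount_mod, classDens_mod]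
      exact hb.le)
  linarith

/-- the law for the classes -/
theorem classes {q : ℕ} (hq : 1 ≤ q) (ε θ : ℝ) (hε : 0 < ε) (hθ : 0 < θ) :
    ∃ C : ℝ, ∃ X₀ : ℕ, ∀ X : ℕ, X₀ ≤ X → ∀ K : ℕ, C * Real.log X ^ 2 ≤ K →
      1 - θ ≤ proportion X K (fun h => ∀ a : ℕ, a.Coprime q →
        |classExcess q a X h - Real.sqrt (2 * K / Nat.totient q)| ≤ ε * Real.sqrt (2 * K / Nat.totient q) ∧
        |classDeficit q a X h - Real.sqrt (2 * K / Nat.totient q)| ≤ ε * Real.sqrt (2 * K / Nat.totient q)) := by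
  have hφ0 : (0 : ℝ) < Nat.totient q := by exact_mod_cast Nat.totient_pos.2 hq
  set T := (range q).filter (fun b => b.Coprime q) with hT
  have hTc : (T.card : ℝ) = Nat.totient q := by
    rw [Nat.totient_eq_card_coprime]
    congr 2
    apply filter_congr
    intro a _
    exact Nat.coprime_comm
  have hgen : ∀ a : ℕ, ∃ C : ℝ, ∃ X₀ : ℕ, a ∈ T → ∀ X : ℕ, X₀ ≤ X → ∀ K : ℕ, C * Real.log X ^ 2 ≤ K →
      1 - θ / Nat.totient q ≤ proportion X K (fun h =>
        |classExcess q a X h - Real.sqrt (2 * K / Nat.totient q)| ≤ ε * Real.sqrt (2 * K / Nat.totient q) ∧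
        |classDeficit q a X h - Real.sqrt (2 * K / Nat.totient q)| ≤ ε * Real.sqrt (2 * K / Nat.totient q)) := by
    intro a
    by_cases ha : a ∈ T
    · have hac : a.Coprime q := (mem_filter.1 ha).2
      obtain ⟨C, X₀, h⟩ := general hq (ind q a) (by rw [meanSq_ind hq hac]; positivity) ε (θ / Nat.totient q) hε (by positivity)
      refine ⟨C, X₀, fun _ X hX K hK => ?_⟩
      have h1 := h X hX K hK
      have e : 2 * meanSq (ind q a) * (K : ℝ) = 2 * K / Nat.totient q := by rw [meanSq_ind hq hac]; ring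
      simp only [e, excess_ind, excess_neg_ind] at h1
      exact h1
    · exact ⟨0, 0, fun h => absurd h ha⟩
  choose C X₀ hC using hgen
  refine ⟨∑ a ∈ T, |C a|, max 1 (∑ a ∈ T, X₀ a), fun X hX K hK => ?_⟩
  have hX1 : 1 ≤ X := (le_max_left _ _).trans hX
  rw [prop_eq]
  set P : ℕ → (Fin K → ℕ) → Prop := fun a h =>
        |classExcess q a X h - Real.sqrt (2 * K / Nat.totient q)| ≤ ε * Real.sqrt (2 * K / Nat.totient q) ∧
        |classDeficit q a X h - Real.sqrt (2 * K / Nat.totient q)| ≤ ε * Real.sqrt (2 * K / Nat.totient q) with hP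
  have hPmod : ∀ a h, P (a % q) h ↔ P a h := by
    intro a h
    simp only [hP, classExcess, classDeficit, classCount_mod, classDens_mod]
  have h1 : ∀ a ∈ T, Pool.Agent.N735.CL.PK X K (fun h => ¬ P a h) ≤ θ / Nat.totient q := by
    intro a ha
    have hXa : X₀ a ≤ X := by
      have h2 := single_le_sum (f := X₀) (fun _ _ => Nat.zero_le _) ha
      exact h2.trans ((le_max_right _ _).trans hX)
    have hKa : C a * Real.log X ^ 2 ≤ K := by
      have h2 := single_le_sum (f := fun a => |C a|) (fun _ _ => abs_nonneg _) ha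
      have h3 : C a ≤ ∑ a ∈ T, |C a| := (le_abs_self _).trans h2
      exact (mul_le_mul_of_nonneg_right h3 (by positivity)).trans hK
    have h2 := hC a ha X hXa K hKa
    rw [prop_eq] at h2
    have h3 := Pool.Agent.N735.CL.PK_not hX1 (K := K) (P a)
    linarith
  have h2 : Pool.Agent.N735.CL.PK X K (fun h => ¬ ∀ a : ℕ, a.Coprime q → P a h) ≤ θ := by
    refine (Pool.Agent.N735.CL.PK_mono (C := fun h => ∃ a ∈ T, ¬ P a h) ?_).trans ?_
    · intro h _ hh
      push Not at hh
      obtain ⟨a, hac, hPa⟩ := hh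
      refine ⟨a % q, ?_, ?_⟩
      · exact Pool.Agent.N735.CL.mod_mem_Cq hq hac
      · rw [hPmod]; exact hPa
    · refine (Pool.Agent.N735.CL.PK_exists T (fun a h => ¬ P a h)).trans ((sum_le_sum h1).trans ?_)
      rw [sum_const, nsmul_eq_mul, hTc]
      apply le_of_eq
      field_simp
  have h3 := Pool.Agent.N735.CL.PK_not hX1 (K := K) (fun h => ∀ a : ℕ, a.Coprime q → P a h)
  linarith

/-- the law without a centering -/
theorem balanced {q : ℕ} (hq : 1 ≤ q) (c : ZMod q → ℝ) (hV : 0 < meanSq c)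
    (h0 : ∑ a ∈ (range q).filter (fun a => a.Coprime q), c (a : ZMod q) = 0) (A : ℕ) (ε θ : ℝ) (hε : 0 < ε) (hθ : 0 < θ) :
    ∃ C : ℝ, ∃ X₀ : ℕ, ∀ X : ℕ, X₀ ≤ X → ∀ K : ℕ, C * Real.log X ^ 2 ≤ K → (K : ℝ) ≤ Real.log X ^ A →
      1 - θ ≤ proportion X K (fun h => |peak c X h - Real.sqrt (2 * meanSq c * K)| ≤ ε * Real.sqrt (2 * meanSq c * K)) := by
  haveI : NeZero q := ⟨by omega⟩
  obtain ⟨M, hM0, hM⟩ : ∃ M : ℝ, 0 < M ∧ ∀ a : ZMod q, |c a| ≤ M := by
    refine ⟨∑ a : ZMod q, |c a| + 1, ?_, fun a => ?_⟩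
    · have : 0 ≤ ∑ a : ZMod q, |c a| := sum_nonneg (fun _ _ => abs_nonneg _)
      linarith
    · have := single_le_sum (f := fun a : ZMod q => |c a|) (fun _ _ => abs_nonneg _) (mem_univ a)
      linarith
  set f : ℕ → ℝ := fun n => c (n : ZMod q) / M with hf
  have hper : ∀ m h, q ∣ m → f (m + h) = f h := by
    intro m h hd
    simp only [hf]
    have : ((m + h : ℕ) : ZMod q) = (h : ZMod q) := by
      rw [Nat.cast_add, (ZMod.natCast_eq_zero_iff m q).2 hd, zero_add]
    rw [this]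
  have hf1 : ∀ n, |f n| ≤ 1 := by
    intro n
    simp only [hf]
    rw [abs_div, abs_of_pos hM0, div_le_one hM0]
    exact hM _
  have hf0 : ∑ a ∈ Pool.Agent.N735.CL.Cq q, f a = 0 := by
    simp only [hf]
    rw [← sum_div]
    unfold Pool.Agent.N735.CL.Cq
    rw [h0, zero_div]
  have hqr : (1 : ℝ) ≤ q := by exact_mod_cast hq
  have hq0 : (0 : ℝ) < q := by linarith
  set V := meanSq c with hVd
  obtain ⟨C, X₁, hC⟩ := general hq c hV (ε / 2) θ (by positivity) hθ
  obtain ⟨X₂, hX₂⟩ := eventually_atTop.1 ((Pool.Agent.N735.CL.win_zero hq hper hf1 hf0 (A + 1)).and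
    (Pool.Agent.N735.CL.tends_log.eventually_ge_atTop (1 + 4 * q * M / (ε * Real.sqrt (2 * V)))))
  refine ⟨C, max (max X₁ X₂) 1, fun X hX K hK hKA => ?_⟩
  have hX1 : 1 ≤ X := (le_max_right _ _).trans hX
  have h1 := hC X (((le_max_left _ _).trans (le_max_left _ _)).trans hX) K hK
  obtain ⟨h2, h3⟩ := hX₂ X (((le_max_right _ _).trans (le_max_left _ _)).trans hX)
  rw [prop_eq] at h1 ⊢
  refine h1.trans (Pool.Agent.N735.CL.PK_mono ?_)
  intro h _ hh
  set L := Real.log (X : ℝ) with hL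
  set S := Real.sqrt (2 * V * K) with hS
  have hs0 : 0 < Real.sqrt (2 * V) := Real.sqrt_pos.2 (by positivity)
  have hpos : 0 ≤ 4 * q * M / (ε * Real.sqrt (2 * V)) := by positivity
  have hL1 : 1 ≤ L := by linarith
  have hL0 : 0 < L := by linarith
  have hcl : ∀ m ∈ Icc 1 X, |(total c h m - K * mean c X m) - total c h m| ≤ ε / 2 * S := by
    intro m hm
    have e : (total c h m - K * mean c X m) - total c h m = -(K * mean c X m) := by ring
    rw [e, abs_neg, abs_mul, abs_of_nonneg (Nat.cast_nonneg K : (0 : ℝ) ≤ K)]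
    have g1 := h2 m (mem_Icc.1 hm).2
    have e2 := mean_eq c M hM0 X m
    have g2 : |mean c X m| ≤ 2 * q / L ^ (A + 1) * M := by
      have e3 : mean c X m = Pool.Agent.N735.CL.Bc f X m * M := by rw [hf, e2]; field_simp
      rw [e3, abs_mul, abs_of_pos hM0]
      exact mul_le_mul_of_nonneg_right g1 hM0.le
    -- √K ≤ log^A
    have hsK : Real.sqrt K ≤ L ^ A := by
      apply Real.sqrt_le_iff.2
      refine ⟨by positivity, hKA.trans ?_⟩
      have : 1 ≤ L ^ A := one_le_pow₀ hL1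
      nlinarith
    have hSe : S = Real.sqrt (2 * V) * Real.sqrt K := by rw [hS, Real.sqrt_mul (by positivity)]
    have hKs : (K : ℝ) = Real.sqrt K * Real.sqrt K := (Real.mul_self_sqrt (Nat.cast_nonneg K)).symm
    have hL4 : 4 * q * M ≤ ε * Real.sqrt (2 * V) * L := by
      have h5 : 4 * q * M / (ε * Real.sqrt (2 * V)) ≤ L := by linarith
      rw [div_le_iff₀ (by positivity)] at h5
      linarith
    calc (K : ℝ) * |mean c X m| ≤ K * (2 * q / L ^ (A + 1) * M) := mul_le_mul_of_nonneg_left g2 (Nat.cast_nonneg K)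
      _ = Real.sqrt K * (Real.sqrt K * (2 * q / L ^ (A + 1) * M)) := by rw [← mul_assoc (Real.sqrt K), ← hKs]
      _ ≤ Real.sqrt K * (L ^ A * (2 * q / L ^ (A + 1) * M)) := by
          apply mul_le_mul_of_nonneg_left _ (Real.sqrt_nonneg _)
          exact mul_le_mul_of_nonneg_right hsK (by positivity)
      _ = Real.sqrt K * (2 * q * M / L) := by rw [pow_succ]; field_simp
      _ ≤ Real.sqrt K * (ε / 2 * Real.sqrt (2 * V)) := by
          apply mul_le_mul_of_nonneg_left _ (Real.sqrt_nonneg _)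
          rw [div_le_iff₀ hL0]
          linarith
      _ = ε / 2 * S := by rw [hSe]; ring
  have h5 := sup_close (fun x : ℕ => total c h x - K * mean c X x) (fun x : ℕ => total c h x) X hX1 _ hcl
  have h6 := hh.1
  unfold peak
  unfold excess at h6
  rw [abs_le] at h5 h6 ⊢
  constructor <;> linarith [h5.1, h5.2, h6.1, h6.2]

/-- The fluctuations in the residue classes. -/
theorem result :
    -- the case `h_i = i`: the primes `≡ a (mod q)` in `(x, x + K]`
    (∀ q a K x : ℕ, classCount q a (fun i : Fin K => (i : ℕ) + 1) x =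
      ((Ioc x (x + K)).filter (fun p => p.Prime ∧ p ≡ a [MOD q])).card) ∧
    -- (1) the upper bound with the factor `φ(q)^(-1/2)`, for all moduli `q ≤ X^(1 - δ)`, all classes and all translates
    (∀ δ : ℝ, 0 < δ → ∃ A : ℝ, ∀ θ : ℝ, 0 < θ → ∃ X₀ : ℕ, ∀ X : ℕ, X₀ ≤ X → ∀ K : ℕ,
      1 - θ ≤ proportion X K (fun h => ∀ q : ℕ, 1 ≤ q → (q : ℝ) ≤ (X : ℝ) ^ (1 - δ) → ∀ a x : ℕ, 1 ≤ x → x ≤ X →
        |(classCount q a h x : ℝ) - K * classDens q a X x| ≤ A * (Real.sqrt (K / Nat.totient q) + Real.log X))) ∧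
    -- (2) a fixed modulus: the exact size, for all reduced classes, in both directions
    (∀ q : ℕ, 1 ≤ q → ∀ ε θ : ℝ, 0 < ε → 0 < θ →
      ∃ C : ℝ, ∃ X₀ : ℕ, ∀ X : ℕ, X₀ ≤ X → ∀ K : ℕ, C * Real.log X ^ 2 ≤ K →
        1 - θ ≤ proportion X K (fun h => ∀ a : ℕ, a.Coprime q →
          |classExcess q a X h - Real.sqrt (2 * K / Nat.totient q)| ≤ ε * Real.sqrt (2 * K / Nat.totient q) ∧
          |classDeficit q a X h - Real.sqrt (2 * K / Nat.totient q)| ≤ ε * Real.sqrt (2 * K / Nat.totient q))) ∧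
    -- (3) a fixed modulus: all linear functionals
    (∀ q : ℕ, 1 ≤ q → ∀ c : ZMod q → ℝ, 0 < meanSq c → ∀ ε θ : ℝ, 0 < ε → 0 < θ →
      ∃ C : ℝ, ∃ X₀ : ℕ, ∀ X : ℕ, X₀ ≤ X → ∀ K : ℕ, C * Real.log X ^ 2 ≤ K →
        1 - θ ≤ proportion X K (fun h => |excess c X h - Real.sqrt (2 * meanSq c * K)| ≤ ε * Real.sqrt (2 * meanSq c * K))) ∧
    -- (4) the functionals with the mean value `0` over the reduced classes need no centering
    (∀ q : ℕ, 1 ≤ q → ∀ c : ZMod q → ℝ, 0 < meanSq c → ∑ a ∈ (range q).filter (fun a => a.Coprime q), c (a : ZMod q) = 0 →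
      ∀ A : ℕ, ∀ ε θ : ℝ, 0 < ε → 0 < θ →
      ∃ C : ℝ, ∃ X₀ : ℕ, ∀ X : ℕ, X₀ ≤ X → ∀ K : ℕ, C * Real.log X ^ 2 ≤ K → (K : ℝ) ≤ Real.log X ^ A →
        1 - θ ≤ proportion X K (fun h => |peak c X h - Real.sqrt (2 * meanSq c * K)| ≤ ε * Real.sqrt (2 * meanSq c * K))) ∧
    -- (5) the race of two different reduced classes
    (∀ q a b : ℕ, 1 ≤ q → a.Coprime q → b.Coprime q → ¬ a ≡ b [MOD q] → ∀ A : ℕ, ∀ ε θ : ℝ, 0 < ε → 0 < θ →
      ∃ C : ℝ, ∃ X₀ : ℕ, ∀ X : ℕ, X₀ ≤ X → ∀ K : ℕ, C * Real.log X ^ 2 ≤ K → (K : ℝ) ≤ Real.log X ^ A →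
        1 - θ ≤ proportion X K (fun h =>
          |race q a b X h - Real.sqrt (4 * K / Nat.totient q)| ≤ ε * Real.sqrt (4 * K / Nat.totient q))) := by
  refine ⟨?_, uniform, ?_, ?_, ?_, ?_⟩
  · intro q a K x
    unfold classCount
    apply card_bij (fun (i : Fin K) _ => x + ((i : ℕ) + 1))
    · intro i hi
      rw [mem_filter] at hi
      rw [mem_filter, mem_Ioc]
      have := i.isLt
      exact ⟨⟨by omega, by omega⟩, hi.2⟩
    · intro i _ j _ hij
      apply Fin.ext
      omega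
    · intro p hp
      rw [mem_filter, mem_Ioc] at hp
      refine ⟨⟨p - x - 1, by omega⟩, ?_, by simp only; omega⟩
      rw [mem_filter]
      refine ⟨mem_univ _, ?_⟩
      have e : x + (p - x - 1 + 1) = p := by omega
      simp only [e]
      exact hp.2
  · intro q hq ε θ hε hθ
    exact classes hq ε θ hε hθ
  · intro q hq c hV ε θ hε hθ
    obtain ⟨C, X₀, h⟩ := general hq c hV ε θ hε hθ
    refine ⟨C, X₀, fun X hX K hK => ?_⟩
    have h1 := h X hX K hK
    rw [prop_eq] at h1 ⊢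
    exact h1.trans (Pool.Agent.N735.CL.PK_mono (fun h _ hh => hh.1))
  · intro q hq c hV h0 A ε θ hε hθ
    exact balanced hq c hV h0 A ε θ hε hθ
  · intro q a b hq ha hb hab A ε θ hε hθ
    have hφ0 : (0 : ℝ) < Nat.totient q := by exact_mod_cast Nat.totient_pos.2 hq
    have hms := meanSq_race hq ha hb hab
    obtain ⟨C, X₀, h⟩ := balanced hq (ind q a - ind q b) (by rw [hms]; positivity) (by
      simp only [Pi.sub_apply, sum_sub_distrib]
      rw [sum_ind hq ha, sum_ind hq hb, sub_self]) A ε θ hε hθ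
    refine ⟨C, X₀, fun X hX K hK hKA => ?_⟩
    have h1 := h X hX K hK hKA
    have e : 2 * meanSq (ind q a - ind q b) * (K : ℝ) = 4 * K / Nat.totient q := by rw [hms]; ring
    simp only [e, peak_race] at h1
    exact h1

end Pool.Agent.Results.MP_9cfc0a_nt.ResidueClassesForPatterns
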