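import Pool.Agent.N799.LW.Main

/-!
# Montgomery's conjecture for primes in progressions: the modulus one

The bound of the question for the modulus `q = 1` (all `x ≥ 2`) follows from the bound on one
arbitrarily sparse sequence of windows `[X, 2 X]`, or from its mean over one arbitrarily sparse
sequence of windows `[X, X + X / (log X) ^ κ]`, `κ > 0` small. If it fails, then the mean of
`|ψ(x; 1, 1) - x|` over EVERY window of this kind has the exponent `Θ > 1/2`, `Θ` the supremum of the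
real parts of the zeros of `ζ`; the same for the bounds with `θ` in place of `1/2`.
-/

set_option autoImplicit false

open Filter Topology MeasureTheory

namespace Pool.Agent.Results.MP_9cfc0a_nt.SparseWindows

open Classical in
/-- `ψ(x; q, a)`, the sum of `Λ(n)` over the positive integers `n ≤ x` with `n ≡ a (mod q)` -/
noncomputable def psi (x : ℝ) (q : ℕ) (a : ℤ) : ℝ :=
  ∑ n ∈ (Finset.Icc 1 ⌊x⌋₊).filter (fun n : ℕ => (n : ℤ) ≡ a [ZMOD (q : ℤ)]),
    ArithmeticFunction.vonMangoldt n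

/-- the error `ψ(x; q, a) - x / φ(q)` -/
noncomputable def err (x : ℝ) (q : ℕ) (a : ℤ) : ℝ := psi x q a - x / (Nat.totient q : ℝ)

/-- the bound of the question for the modulus `q`, with the exponent `θ` (`1/2` in the question) -/
def BoundFor (θ : ℝ) (q : ℕ) : Prop := ∀ ε : ℝ, 0 < ε → ∃ C : ℝ, ∀ x : ℝ, 2 ≤ x → (q : ℝ) ≤ x ^ (1 / 2 : ℝ) →
  ∀ a : ℤ, IsCoprime a (q : ℤ) → 0 < a → (a : ℝ) ≤ x ^ (1 / 2 : ℝ) →
    |err x q a| ≤ C * x ^ (θ + ε) / (q : ℝ) ^ (1 / 2 : ℝ)

/-- the integral of `|ψ(x; q, a) - x / φ(q)|` over the window `[X, X + X / (log X) ^ κ]`; for `κ = 0`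
the window is `[X, 2 X]` -/
noncomputable def windowError (q : ℕ) (a : ℤ) (κ X : ℝ) : ℝ :=
  ∫ x in X..(X + X / Real.log X ^ κ), |err x q a|

/-- the supremum of the real parts of the zeros of `ζ` -/
noncomputable def Theta : ℝ := sSup {x : ℝ | ∃ s : ℂ, riemannZeta s = 0 ∧ s.re = x}

lemma psi_one (x : ℝ) (a : ℤ) : psi x 1 a = Chebyshev.psi x := by
  unfold psi
  rw [Finset.filter_true_of_mem (fun n _ => by
    simp only [Nat.cast_one]; exact Int.modEq_one), Chebyshev.psi_eq_sum_Icc]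
  rw [← Finset.sum_subset (Finset.Icc_subset_Icc_left (Nat.zero_le 1))]
  intro n hn hn'
  have : n = 0 := by
    by_contra h
    rw [Finset.mem_Icc] at hn hn'
    exact hn' ⟨Nat.one_le_iff_ne_zero.2 h, hn.2⟩
  rw [this]
  simp

lemma err_one (x : ℝ) (a : ℤ) : err x 1 a = Chebyshev.psi x - x := by
  unfold err
  rw [psi_one, Nat.totient_one]
  simp

lemma window_one (a : ℤ) (κ X : ℝ) : windowError 1 a κ X = Pool.Agent.N799.LW.WE κ X := by
  unfold windowError Pool.Agent.N799.LW.WE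
  simp only [err_one]

/-- the bound for the modulus one and zero free half planes -/
lemma bound_iff {θ : ℝ} (hθ : 1 / 2 ≤ θ) (hθ1 : θ < 1) :
    BoundFor θ 1 ↔ Pool.Agent.N799.LW.Free θ := by
  constructor
  · intro h
    rw [Pool.Agent.N799.LW.crit (κ := 0) hθ hθ1 le_rfl (by linarith)]
    intro ε hε
    obtain ⟨C, hC⟩ := h (ε / 2) (by linarith)
    have hb : ∀ y : ℝ, 2 ≤ y → |Chebyshev.psi y - y| ≤ |C| * y ^ (θ + ε / 2) := by
      intro y hy
      have h1 := hC y hy (by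
        rw [Nat.cast_one]
        exact Real.one_le_rpow (by linarith) (by norm_num)) 1 isCoprime_one_left (by norm_num) (by
        rw [Int.cast_one]
        exact Real.one_le_rpow (by linarith) (by norm_num))
      rw [err_one, Nat.cast_one, Real.one_rpow, div_one] at h1
      refine h1.trans ?_
      have : 0 ≤ y ^ (θ + ε / 2) := Real.rpow_nonneg (by linarith) _
      exact mul_le_mul_of_nonneg_right (le_abs_self C) this
    have h2 : ∀ᶠ X : ℝ in atTop, |C| * 2 ^ (θ + ε / 2) ≤ X ^ (ε / 2) :=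
      (tendsto_rpow_atTop (by linarith : 0 < ε / 2)).eventually_ge_atTop _
    apply Eventually.frequently
    filter_upwards [h2, eventually_ge_atTop (2 : ℝ)] with X h3 h4
    have hX0 : 0 < X := by linarith
    unfold Pool.Agent.N799.LW.WE
    rw [Real.rpow_zero, div_one]
    have h6 : ‖∫ x in X..(X + X), |Chebyshev.psi x - x|‖ ≤
        (|C| * (2 * X) ^ (θ + ε / 2)) * |X + X - X| := by
      apply intervalIntegral.norm_integral_le_of_norm_le_const
      intro x hx
      rw [Set.uIoc_of_le (by linarith)] at hx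
      rw [Real.norm_eq_abs, abs_abs]
      refine (hb x (by linarith [hx.1])).trans ?_
      have h7 : x ^ (θ + ε / 2) ≤ (2 * X) ^ (θ + ε / 2) :=
        Real.rpow_le_rpow (by linarith [hx.1]) (by linarith [hx.2]) (by linarith)
      exact mul_le_mul_of_nonneg_left h7 (abs_nonneg C)
    refine ((le_abs_self _).trans h6).trans ?_
    rw [add_sub_cancel_left, abs_of_pos hX0, Real.mul_rpow (by norm_num) hX0.le]
    calc |C| * (2 ^ (θ + ε / 2) * X ^ (θ + ε / 2)) * X
        = (|C| * 2 ^ (θ + ε / 2)) * (X ^ (θ + ε / 2) * X ^ (1 : ℝ)) := by rw [Real.rpow_one]; ring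
      _ ≤ X ^ (ε / 2) * (X ^ (θ + ε / 2) * X ^ (1 : ℝ)) := by
        exact mul_le_mul_of_nonneg_right h3 (by positivity)
      _ = X ^ (1 + θ + ε) := by
        rw [← Real.rpow_add hX0, ← Real.rpow_add hX0]
        congr 1
        ring
  · intro h ε hε
    obtain ⟨C, hC, h1⟩ := Pool.Agent.N799.LW.psi_of_free hθ hθ1 hε h
    refine ⟨C, fun x hx _ a _ _ _ => ?_⟩
    rw [err_one, Nat.cast_one, Real.one_rpow, div_one]
    exact h1 x (by linarith)

theorem result :
    -- one arbitrarily sparse sequence of windows `[X, 2 X]` is enough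
    (∀ a : ℤ, BoundFor (1 / 2) 1 ↔ ∀ ε : ℝ, 0 < ε → ∃ᶠ X : ℝ in atTop,
      ∀ x ∈ Set.Icc X (2 * X), |err x 1 a| ≤ x ^ (1 / 2 + ε)) ∧
    -- the mean over an arbitrarily sparse sequence of shorter windows is enough
    (∀ (a : ℤ) (θ κ : ℝ), 1 / 2 ≤ θ → θ < 1 → 0 ≤ κ → κ * (5 - 4 * θ) ≤ 4 * θ - 2 →
      (BoundFor θ 1 ↔ ∀ ε : ℝ, 0 < ε → ∃ᶠ X : ℝ in atTop, windowError 1 a κ X ≤ X ^ (1 + θ + ε))) ∧
    (∀ a : ℤ, BoundFor (1 / 2) 1 ↔ ∀ ε κ : ℝ, 0 < ε → 0 < κ →
      ∃ᶠ X : ℝ in atTop, windowError 1 a κ X ≤ X ^ (3 / 2 + ε)) ∧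
    -- if the bound fails, it fails in the mean over every window
    (¬ BoundFor (1 / 2) 1 → 1 / 2 < Theta ∧
      ∀ (a : ℤ) (κ : ℝ), 0 ≤ κ → κ * (5 - 4 * Theta) < 4 * Theta - 2 →
        Tendsto (fun X : ℝ => Real.log (windowError 1 a κ X) / Real.log X) atTop (𝓝 (1 + Theta))) := by
  have hRH : BoundFor (1 / 2) 1 ↔ RiemannHypothesis := by
    rw [bound_iff le_rfl (by norm_num), Pool.Agent.N799.LW.rh_free]
  refine ⟨fun a => ?_, fun a θ κ h1 h2 h3 h4 => ?_, fun a => ?_, fun h => ?_⟩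
  · rw [hRH, Pool.Agent.N799.LW.rh_pointwise]
    simp only [err_one]
  · rw [bound_iff h1 h2, Pool.Agent.N799.LW.crit h1 h2 h3 h4]
    simp only [window_one]
  · rw [hRH, Pool.Agent.N799.LW.rh_short]
    simp only [window_one]
  · rw [hRH] at h
    refine ⟨Pool.Agent.N799.LW.half_lt_Th h, fun a κ hκ hκΘ => ?_⟩
    simp only [window_one]
    exact Pool.Agent.N799.LW.exponent h hκ hκΘ

end Pool.Agent.Results.MP_9cfc0a_nt.SparseWindows
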